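import Pool.Agent.W854.IG.Stmts

/-! Project IG (helper854): IG-MONO and IG-RLN, the real-variable inequality, normalised. -/

set_option autoImplicit false

namespace Pool.Agent.W571.IG

open Set
open Pool.Agent.W854.IG

/-- the radicand -/
def rad (c x : ℝ) : ℝ := (x ^ 2 - c ^ 2) * (x ^ 2 * c ^ 2 - 1)

theorem rad_nonneg {c x : ℝ} (hc : 1 ≤ c) (hx : c ≤ x) : 0 ≤ rad c x := by
  unfold rad
  apply mul_nonneg
  · nlinarith
  · have h1 : 1 ≤ x ^ 2 := by nlinarith
    have h2 : 1 ≤ c ^ 2 := by nlinarith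
    nlinarith

theorem rad_pos {c x : ℝ} (hc : 1 ≤ c) (hx : c < x) : 0 < rad c x := by
  unfold rad
  apply mul_pos
  · nlinarith
  · have h1 : 1 < x ^ 2 := by nlinarith
    have h2 : 1 ≤ c ^ 2 := by nlinarith
    nlinarith

theorem sq_G {c x : ℝ} (hc : 1 ≤ c) (hx : c ≤ x) : √(rad c x) ^ 2 = rad c x :=
  Real.sq_sqrt (rad_nonneg hc hx)

theorem hasDeriv_rad (c x : ℝ) :
    HasDerivAt (rad c) (2 * x * (x ^ 2 * c ^ 2 - 1) + (x ^ 2 - c ^ 2) * (2 * x * c ^ 2)) x := by
  unfold rad
  have h1 : HasDerivAt (fun x : ℝ => x ^ 2) (2 * x) x := by simpa using hasDerivAt_pow 2 x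
  exact (h1.sub_const (c ^ 2)).mul ((h1.mul_const (c ^ 2)).sub_const 1)

theorem deriv_key {a c x G D : ℝ} (hc : 1 ≤ c) (hx : c ≤ x) (hxa : x < a) (hG0 : 0 ≤ G)
    (hD0 : 0 ≤ D) (hG : G ^ 2 = rad c x) (hD : D ^ 2 = rad c a) :
    0 ≤ a * (a * c ^ 2 * (x ^ 4 - 1) + (c ^ 4 + 1) * x ^ 3 - 2 * c ^ 2 * x) -
      G * (D * x ^ 2 + c * (a + x) ^ 2) := by
  have hca : c ≤ a := by linarith
  have hc2 : 1 ≤ c ^ 2 := by nlinarith
  have hc4 : 1 ≤ c ^ 4 := by nlinarith
  have hx2 : c ^ 2 ≤ x ^ 2 := by nlinarith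
  have ha2 : c ^ 2 ≤ a ^ 2 := by nlinarith
  set P1 := a ^ 2 * c ^ 2 * x ^ 2 + c ^ 2 - (c ^ 4 + 1) / 2 * (x ^ 2 + a ^ 2) with hP1
  have hP1' : P1 = c ^ 2 * ((a ^ 2 - c ^ 2) * (x ^ 2 - c ^ 2)) +
      (c ^ 4 - 1) / 2 * ((a ^ 2 - c ^ 2) + (x ^ 2 - c ^ 2)) := by rw [hP1]; ring
  have hP10 : 0 ≤ P1 := by
    rw [hP1']
    have h1 : 0 ≤ (a ^ 2 - c ^ 2) * (x ^ 2 - c ^ 2) :=
      mul_nonneg (by linarith) (by linarith)
    have h2 : 0 ≤ (c ^ 4 - 1) / 2 * ((a ^ 2 - c ^ 2) + (x ^ 2 - c ^ 2)) :=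
      mul_nonneg (by linarith) (by linarith)
    positivity
  have hK : 0 ≤ ((c ^ 4 + 1) / 2) ^ 2 - c ^ 4 := by
    have : ((c ^ 4 + 1) / 2) ^ 2 - c ^ 4 = ((c ^ 4 - 1) / 2) ^ 2 := by ring
    rw [this]
    positivity
  have hGD : G * D ≤ P1 := by
    apply le_of_sq_le_sq _ hP10
    rw [mul_pow, hG, hD]
    have : P1 ^ 2 - rad c x * rad c a = (((c ^ 4 + 1) / 2) ^ 2 - c ^ 4) * (x ^ 2 - a ^ 2) ^ 2 := by
      rw [hP1]
      unfold rad
      ring
    have h2 := mul_nonneg hK (sq_nonneg (x ^ 2 - a ^ 2))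
    linarith
  set P2 := c ^ 2 * x ^ 2 - (c ^ 4 + 1) / 2 with hP2
  have hP20 : 0 ≤ P2 := by
    rw [hP2]
    nlinarith
  have hcG : c * G ≤ P2 := by
    apply le_of_sq_le_sq _ hP20
    rw [mul_pow, hG]
    have : P2 ^ 2 - c ^ 2 * rad c x = ((c ^ 4 + 1) / 2) ^ 2 - c ^ 4 := by
      rw [hP2]
      unfold rad
      ring
    linarith
  have e1 : a * (a * c ^ 2 * (x ^ 4 - 1) + (c ^ 4 + 1) * x ^ 3 - 2 * c ^ 2 * x) - x ^ 2 * P1 -
      P2 * (a + x) ^ 2 = (c ^ 2 - 1) ^ 2 / 2 * (1 + x ^ 2) * (a + x) ^ 2 := by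
    rw [hP1, hP2]
    ring
  have e2 : 0 ≤ (c ^ 2 - 1) ^ 2 / 2 * (1 + x ^ 2) * (a + x) ^ 2 := by positivity
  have e3 : G * (D * x ^ 2 + c * (a + x) ^ 2) ≤ x ^ 2 * P1 + P2 * (a + x) ^ 2 := by
    calc G * (D * x ^ 2 + c * (a + x) ^ 2) = x ^ 2 * (G * D) + (c * G) * (a + x) ^ 2 := by ring
      _ ≤ _ := by gcongr
  linarith

theorem mono : S_MONO := by
  intro a c x y hc hcx hxy hya
  have hca : c < a := by linarith
  have hc0 : 0 < c := by linarith
  have ha0 : 0 < a := by linarith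
  have hm : MonotoneOn (mfun a c) (Ico c a) := by
    have hden : ∀ x, 0 < x → 0 < c * x * (a + x) := fun x hx => by positivity
    have hcont : ∀ x, 0 < x → ContinuousAt (mfun a c) x := by
      intro x hx
      unfold mfun
      fun_prop (disch := exact (hden x hx).ne')
    apply monotoneOn_of_deriv_nonneg (convex_Ico c a)
    · intro x hx
      exact (hcont x (by linarith [hx.1])).continuousWithinAt
    · rw [interior_Ico]
      intro x hx
      have h1 := rad_pos hc hx.1
      have hx0 : 0 < x := by linarith [hx.1]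
      unfold mfun
      apply DifferentiableAt.differentiableWithinAt
      have h2 : DifferentiableAt ℝ (fun x => √((x ^ 2 - c ^ 2) * (x ^ 2 * c ^ 2 - 1))) x :=
          ((hasDeriv_rad c x).differentiableAt).sqrt h1.ne'
      refine DifferentiableAt.fun_div (by fun_prop) (by fun_prop) (hden x hx0).ne'
    · rw [interior_Ico]
      intro x hx
      have hxp := rad_pos hc hx.1
      have hx0 : 0 < x := by linarith [hx.1]
      set G := √(rad c x) with hG
      set D := √(rad c a) with hD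
      have hG0 : 0 < G := Real.sqrt_pos.2 hxp
      have hD0 : 0 ≤ D := Real.sqrt_nonneg _
      have hGd : HasDerivAt (fun x => √(rad c x))
          ((2 * x * (x ^ 2 * c ^ 2 - 1) + (x ^ 2 - c ^ 2) * (2 * x * c ^ 2)) / (2 * G)) x :=
        (hasDeriv_rad c x).sqrt hxp.ne'
      set G' := (2 * x * (x ^ 2 * c ^ 2 - 1) + (x ^ 2 - c ^ 2) * (2 * x * c ^ 2)) / (2 * G) with hG'
      have hN : HasDerivAt (fun x => a * √(rad c x) + x * D + c * (a + x))
          (a * G' + 1 * D + c * 1) x :=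
        ((hGd.const_mul a).add ((hasDerivAt_id x).mul_const D)).add
          (((hasDerivAt_id x).const_add a).const_mul c)
      have hDn : HasDerivAt (fun x : ℝ => c * x * (a + x)) (c * 1 * (a + x) + c * x * 1) x :=
        ((hasDerivAt_id x).const_mul c).mul ((hasDerivAt_id x).const_add a)
      have hf := hN.fun_div hDn (hden x hx0).ne'
      have e : mfun a c = fun x => (a * √(rad c x) + x * D + c * (a + x)) / (c * x * (a + x)) := rfl
      rw [e]
      rw [HasDerivAt.deriv hf]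
      apply div_nonneg _ (sq_nonneg _)
      have hk := deriv_key hc hx.1.le hx.2 hG0.le hD0 (sq_G hc hx.1.le) (sq_G hc hca.le)
      have hGG : G ^ 2 = rad c x := sq_G hc hx.1.le
      have hGG' : G * G' = 2 * x * (c ^ 2 * x ^ 2 - (c ^ 4 + 1) / 2) := by
        rw [hG']
        field_simp
        ring
      have key : G * ((a * G' + 1 * D + c * 1) * (c * x * (a + x)) -
          (a * √(rad c x) + x * D + c * (a + x)) * (c * 1 * (a + x) + c * x * 1)) =
          c * (a * (a * c ^ 2 * (x ^ 4 - 1) + (c ^ 4 + 1) * x ^ 3 - 2 * c ^ 2 * x) -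
            G * (D * x ^ 2 + c * (a + x) ^ 2)) := by
        rw [← hG]
        have hGG2 : G ^ 2 = (x ^ 2 - c ^ 2) * (x ^ 2 * c ^ 2 - 1) := hGG
        linear_combination (a * c * x * (a + x)) * hGG' - (a * c * (a + 2 * x)) * hGG2
      have h3 : 0 ≤ G * ((a * G' + 1 * D + c * 1) * (c * x * (a + x)) -
          (a * √(rad c x) + x * D + c * (a + x)) * (c * 1 * (a + x) + c * x * 1)) := by
        rw [key]
        exact mul_nonneg hc0.le hk
      exact nonneg_of_mul_nonneg_right h3 hG0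
  exact hm ⟨hcx, by linarith⟩ ⟨by linarith, hya⟩ hxy

/-! ### IG-RLN -/

theorem quad_le {A B C : ℝ} (hA : 0 ≤ A) (hC : 0 ≤ C) (h : ∀ t : ℝ, 0 < t →
    0 ≤ A * t ^ 2 + B * t + C) : -B ≤ 2 * √(A * C) := by
  rcases le_or_gt 0 B with hB | hB
  · have := Real.sqrt_nonneg (A * C)
    linarith
  · rcases hA.eq_or_lt with h0 | h0
    · exfalso
      subst h0
      have ht : 0 < (C + 1) / (-B) := by
        apply div_pos <;> linarith
      have h1 := h _ ht
      have hB' : B ≠ 0 := hB.ne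
      have h2 : B * ((C + 1) / (-B)) = -(C + 1) := by
        rw [div_neg, mul_neg, mul_div_cancel₀ _ hB']
      rw [h2] at h1
      linarith
    · have ht : 0 < -B / (2 * A) := by
        apply div_pos <;> linarith
      have h1 := h _ ht
      have h2 : A * (-B / (2 * A)) ^ 2 + B * (-B / (2 * A)) + C = C - B ^ 2 / (4 * A) := by
        field_simp
        ring
      rw [h2] at h1
      have h3 : B ^ 2 ≤ 4 * (A * C) := by
        have : B ^ 2 / (4 * A) ≤ C := by linarith
        rw [div_le_iff₀ (by positivity)] at this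
        linarith
      apply le_of_sq_le_sq _ (by positivity)
      rw [mul_pow, Real.sq_sqrt (by positivity)]
      linarith [neg_sq B]

theorem quad_lead {A B C : ℝ} (h : ∀ t : ℝ, 0 < t → 0 ≤ A * t ^ 2 + B * t + C) : 0 ≤ A := by
  by_contra hA
  push Not at hA
  set t := 1 + (|B| + |C| + 1) / (-A) with ht
  have hq : 0 < (|B| + |C| + 1) / (-A) := by
    apply div_pos
    · positivity
    · linarith
  have ht1 : 1 < t := by linarith
  have h1 := h t (by linarith)
  have hA' : A ≠ 0 := hA.ne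
  have h2 : A * t = A - (|B| + |C| + 1) := by
    rw [ht, mul_add, mul_one, div_neg, mul_neg, mul_div_cancel₀ _ hA']
    ring
  have h3 : A * t ^ 2 + B * t + C ≤ t * (A * t + |B| + |C|) := by
    have e1 : B * t ≤ |B| * t := mul_le_mul_of_nonneg_right (le_abs_self B) (by linarith)
    have e2 : C ≤ |C| * t := by
      have := le_abs_self C
      have := abs_nonneg C
      nlinarith
    nlinarith
  rw [h2] at h3
  have h4 : t * (A - (|B| + |C| + 1) + |B| + |C|) < 0 := by
    apply mul_neg_of_pos_of_neg (by linarith)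
    linarith
  linarith

theorem amgm {p q ζ : ℝ} (hp : 0 ≤ p) (hq : 0 ≤ q) (hζ : 0 < ζ) :
    2 * √(p * q) * ζ ≤ p * ζ ^ 2 + q := by
  rw [Real.sqrt_mul hp]
  have h1 := Real.sq_sqrt hp
  have h2 := Real.sq_sqrt hq
  nlinarith [sq_nonneg (√p * ζ - √q)]

/-- the identity `a^2 G^2 + c^2 (a^2 - x^2)(x^2 a^2 - 1) = x^2 D^2` -/
theorem GD_id (a c x : ℝ) : a ^ 2 * rad c x + c ^ 2 * ((a ^ 2 - x ^ 2) * (x ^ 2 * a ^ 2 - 1)) =
    x ^ 2 * rad c a := by
  unfold rad
  ring

theorem sq_iff {a c s x G D : ℝ} (hc : 0 < c) (hxa : x < a) (hx0 : 0 < x)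
    (hG : G ^ 2 = rad c x) (hD : D ^ 2 = rad c a) :
    (c * (a ^ 2 - x ^ 2) * s - a * G) ^ 2 ≤ (x * D) ^ 2 ↔
      c * (1 + s ^ 2 * a ^ 2 - x ^ 2 * (a ^ 2 + s ^ 2)) ≤ 2 * (a * s) * G := by
  have h1 := GD_id a c x
  rw [← hG, ← hD] at h1
  have hpos : 0 < c * (a ^ 2 - x ^ 2) := by
    apply mul_pos hc
    nlinarith
  have e : (x * D) ^ 2 - (c * (a ^ 2 - x ^ 2) * s - a * G) ^ 2 = (c * (a ^ 2 - x ^ 2)) *
      (2 * (a * s) * G - c * (1 + s ^ 2 * a ^ 2 - x ^ 2 * (a ^ 2 + s ^ 2))) := by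
    linear_combination -h1
  constructor
  · intro h
    have h2 : 0 ≤ (c * (a ^ 2 - x ^ 2)) *
      (2 * (a * s) * G - c * (1 + s ^ 2 * a ^ 2 - x ^ 2 * (a ^ 2 + s ^ 2))) := by
      rw [← e]; linarith
    have := nonneg_of_mul_nonneg_right h2 hpos
    linarith
  · intro h
    have h2 : 0 ≤ (c * (a ^ 2 - x ^ 2)) *
      (2 * (a * s) * G - c * (1 + s ^ 2 * a ^ 2 - x ^ 2 * (a ^ 2 + s ^ 2))) :=
      mul_nonneg hpos.le (by linarith)
    rw [← e] at h2
    linarith

theorem rln (hM : S_MONO) : S_RLN := by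
  intro a c s X n m w ζ hc hca hcs haX hn hm hasn hw hζ H
  have hc0 : 0 < c := by linarith
  have ha0 : 0 < a := by linarith
  have hs0 : 0 < s := by linarith
  have hX0 : 0 < X := by linarith
  have has : 0 < a * s := by positivity
  set x1 := X * (1 + n) / (1 + m) with hx1
  set y := X * (w + n) / (w + m) with hy
  have hx10 : 0 < x1 := by positivity
  have hy0 : 0 < y := by
    have : 0 < w + n := by linarith
    have : 0 < w + m := by linarith
    positivity
  set S := w * s with hS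
  have hSs : s ≤ S := by rw [hS]; nlinarith
  have hS0 : 0 < S := by linarith
  have hSc : c ≤ S := by linarith
  -- the quadratic at x1
  have hq : ∀ t : ℝ, 0 < t → 0 ≤ (a * s * (x1 ^ 2 - c ^ 2)) * t ^ 2 +
      (c * (x1 ^ 2 * (a ^ 2 + s ^ 2) - 1 - s ^ 2 * a ^ 2)) * t + a * s * (x1 ^ 2 * c ^ 2 - 1) := by
    intro t ht
    have := H t ht
    have e : (a * s * (x1 ^ 2 - c ^ 2)) * t ^ 2 +
      (c * (x1 ^ 2 * (a ^ 2 + s ^ 2) - 1 - s ^ 2 * a ^ 2)) * t + a * s * (x1 ^ 2 * c ^ 2 - 1) =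
      x1 ^ 2 * ((t * a + s * c) * (t * s + a * c)) - (t * c + s * a) * (a * c * t * s + 1) := by
      ring
    rw [e]
    linarith
  have hA := quad_lead hq
  have hx1c : c ≤ x1 := by
    have h1 : 0 ≤ x1 ^ 2 - c ^ 2 := nonneg_of_mul_nonneg_right hA has
    exact le_of_sq_le_sq (by linarith) hx10.le
  have hc2 : 1 ≤ c ^ 2 := by nlinarith
  have hx12 : c ^ 2 ≤ x1 ^ 2 := by nlinarith
  have hCC : 0 ≤ a * s * (x1 ^ 2 * c ^ 2 - 1) := by
    apply mul_nonneg has.le
    nlinarith
  -- it suffices to bound the middle coefficient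
  have suff : 0 ≤ (a * S * (y ^ 2 - c ^ 2)) * ζ ^ 2 +
      (c * (y ^ 2 * (a ^ 2 + S ^ 2) - 1 - S ^ 2 * a ^ 2)) * ζ + a * S * (y ^ 2 * c ^ 2 - 1) →
      (ζ * c + S * a) * (a * c * ζ * S + 1) ≤ y ^ 2 * ((ζ * a + S * c) * (ζ * S + a * c)) := by
    intro h
    have e : (a * S * (y ^ 2 - c ^ 2)) * ζ ^ 2 +
      (c * (y ^ 2 * (a ^ 2 + S ^ 2) - 1 - S ^ 2 * a ^ 2)) * ζ + a * S * (y ^ 2 * c ^ 2 - 1) =
      y ^ 2 * ((ζ * a + S * c) * (ζ * S + a * c)) - (ζ * c + S * a) * (a * c * ζ * S + 1) := by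
      ring
    rw [e] at h
    linarith
  apply suff
  rcases le_or_gt a y with hay | hay
  · -- case y >= a
    have hya2 : a ^ 2 ≤ y ^ 2 := by nlinarith
    have hac2 : c ^ 2 ≤ a ^ 2 := by nlinarith
    have h1 : 0 ≤ a * S * (y ^ 2 - c ^ 2) := mul_nonneg (by positivity) (by linarith)
    have h2 : 0 ≤ c * (y ^ 2 * (a ^ 2 + S ^ 2) - 1 - S ^ 2 * a ^ 2) := by
      apply mul_nonneg hc0.le
      have e1 : a ^ 2 * (a ^ 2 + S ^ 2) ≤ y ^ 2 * (a ^ 2 + S ^ 2) := by
        gcongr
      nlinarith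
    have h3 : 0 ≤ a * S * (y ^ 2 * c ^ 2 - 1) := by
      apply mul_nonneg (by positivity)
      nlinarith
    positivity
  · -- case y < a
    have hwm : 0 < w + m := by linarith
    have hwn : 0 < w + n := by linarith
    have hnm : n < m := by
      by_contra hcon
      push Not at hcon
      have : X ≤ y := by
        rw [hy, le_div_iff₀ hwm]
        nlinarith
      linarith
    have hx1y : x1 ≤ y := by
      rw [hx1, hy, div_le_div_iff₀ (by linarith) hwm]
      have : (1 + n) * (w + m) ≤ (w + n) * (1 + m) := by nlinarith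
      calc X * (1 + n) * (w + m) = X * ((1 + n) * (w + m)) := by ring
        _ ≤ X * ((w + n) * (1 + m)) := by gcongr
        _ = _ := by ring
    have hx1a : x1 < a := by linarith
    have hyc : c ≤ y := by linarith
    -- the condition at x1
    have k1 := quad_le hA hCC hq
    have k2 : √(a * s * (x1 ^ 2 - c ^ 2) * (a * s * (x1 ^ 2 * c ^ 2 - 1))) =
        a * s * √(rad c x1) := by
      have : a * s * (x1 ^ 2 - c ^ 2) * (a * s * (x1 ^ 2 * c ^ 2 - 1)) =
          (a * s) ^ 2 * rad c x1 := by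
        unfold rad
        ring
      rw [this, Real.sqrt_mul (by positivity), Real.sqrt_sq has.le]
    rw [k2] at k1
    set D := √(rad c a) with hD
    have hDD : D ^ 2 = rad c a := sq_G hc hca
    have hD0 : 0 ≤ D := Real.sqrt_nonneg _
    have k3 : c * (1 + s ^ 2 * a ^ 2 - x1 ^ 2 * (a ^ 2 + s ^ 2)) ≤ 2 * (a * s) * √(rad c x1) := by
      linarith
    have k4 := (sq_iff hc0 hx1a hx10 (sq_G hc hx1c) hDD).2 k3
    have k5 := (abs_le.1 (abs_le_of_sq_le_sq k4 (by positivity))).2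
    set M := ((a - x1) * s + 1) / x1 with hMdef
    have hMx : M * x1 = (a - x1) * s + 1 := by
      rw [hMdef]
      field_simp
    have k6 : M ≤ mfun a c x1 := by
      have e : mfun a c x1 = (a * √(rad c x1) + x1 * D + c * (a + x1)) / (c * x1 * (a + x1)) := rfl
      rw [e, le_div_iff₀ (by positivity)]
      calc M * (c * x1 * (a + x1)) = (M * x1) * (c * (a + x1)) := by ring
        _ = c * (a ^ 2 - x1 ^ 2) * s + c * (a + x1) := by rw [hMx]; ring
        _ ≤ _ := by linarith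
    have k7 : M ≤ mfun a c y := k6.trans (hM a c x1 y hc hx1c hx1y hay)
    have k8 : c * (a + y) * (M * y - 1) ≤ a * √(rad c y) + y * D := by
      have e : mfun a c y = (a * √(rad c y) + y * D + c * (a + y)) / (c * y * (a + y)) := rfl
      rw [e, le_div_iff₀ (by positivity)] at k7
      linarith
    -- the claim
    have claim : 0 ≤ X * (w + n) * (M + w * s) - (1 + a * w * s) * (w + m) := by
      set c2 := s * (X - a) with hc2d
      set c0 := X * n * M - m with hc0d
      have hc20 : 0 ≤ c2 := mul_nonneg hs0.le (by linarith)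
      have hF1 : X * (1 + n) * (M + s) = (1 + a * s) * (1 + m) := by
        have h1 : x1 * (1 + m) = X * (1 + n) := by
          rw [hx1]
          field_simp
        rw [← h1]
        linear_combination (1 + m) * hMx
      have e : X * (w + n) * (M + w * s) - (1 + a * w * s) * (w + m) = (w - 1) * (c2 * w - c0) := by
        rw [hc2d, hc0d]
        linear_combination w * hF1
      rw [e]
      apply mul_nonneg (by linarith)
      rcases le_or_gt c0 0 with h0 | h0
      · have : 0 ≤ c2 * w := mul_nonneg hc20 (by linarith)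
        linarith
      · exfalso
        have hXM : 1 ≤ X * M := by
          have h1 : 1 ≤ M * x1 := by
            rw [hMx]
            have : 0 ≤ (a - x1) * s := mul_nonneg (by linarith) hs0.le
            linarith
          have hM0 : 0 < M := by
            by_contra hcon
            push Not at hcon
            nlinarith
          nlinarith
        have h2 : X * M + X * n * s - 1 - a * s * m = -c2 - c0 := by
          rw [hc2d, hc0d]
          linear_combination hF1
        have h3 : a * s * m ≤ a * s * (X * n * M) := by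
          apply mul_le_mul_of_nonneg_left _ has.le
          linarith
        have h4 : a * s * n ≤ X * n * s := by
          have : a * (s * n) ≤ X * (s * n) := by gcongr
          linarith
        have h5 : 0 ≤ (1 - a * s * n) * (X * M - 1) := mul_nonneg (by linarith) (by linarith)
        nlinarith
    have claim' : S * (a - y) ≤ M * y - 1 := by
      have h1 : y * (w + m) = X * (w + n) := by
        rw [hy]
        field_simp
      rw [← h1] at claim
      have h2 : 0 ≤ (w + m) * (y * (M + w * s) - (1 + a * w * s)) := by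
        linarith
      have h3 := nonneg_of_mul_nonneg_right h2 hwm
      rw [hS]
      linarith
    have k9 : c * (a ^ 2 - y ^ 2) * S ≤ a * √(rad c y) + y * D := by
      calc c * (a ^ 2 - y ^ 2) * S = c * (a + y) * (S * (a - y)) := by ring
        _ ≤ c * (a + y) * (M * y - 1) := by gcongr
        _ ≤ _ := k8
    have hGy0 : 0 ≤ √(rad c y) := Real.sqrt_nonneg _
    have hGy : √(rad c y) ^ 2 = rad c y := sq_G hc hyc
    have ha1 : 1 ≤ a ^ 2 := by nlinarith
    have hy1 : 1 ≤ y ^ 2 := by nlinarith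
    have hay2 : 0 < a ^ 2 - y ^ 2 := by nlinarith
    have k10 : a * √(rad c y) ≤ y * D := by
      apply le_of_sq_le_sq _ (by positivity)
      rw [mul_pow, mul_pow, hGy, hDD, ← GD_id a c y]
      have : 0 ≤ c ^ 2 * ((a ^ 2 - y ^ 2) * (y ^ 2 * a ^ 2 - 1)) := by
        apply mul_nonneg (by positivity)
        apply mul_nonneg hay2.le
        nlinarith
      linarith
    have k11 : (c * (a ^ 2 - y ^ 2) * S - a * √(rad c y)) ^ 2 ≤ (y * D) ^ 2 := by
      apply sq_le_sq'
      · have : 0 ≤ c * (a ^ 2 - y ^ 2) * S := by positivity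
        linarith
      · linarith
    have k12 := (sq_iff hc0 hay hy0 hGy hDD).1 k11
    -- conclusion
    have hp : 0 ≤ a * S * (y ^ 2 - c ^ 2) := mul_nonneg (by positivity) (by nlinarith)
    have hr : 0 ≤ a * S * (y ^ 2 * c ^ 2 - 1) := mul_nonneg (by positivity) (by nlinarith)
    have k13 := amgm hp hr hζ
    have k14 : √(a * S * (y ^ 2 - c ^ 2) * (a * S * (y ^ 2 * c ^ 2 - 1))) =
        a * S * √(rad c y) := by
      have : a * S * (y ^ 2 - c ^ 2) * (a * S * (y ^ 2 * c ^ 2 - 1)) =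
          (a * S) ^ 2 * rad c y := by
        unfold rad
        ring
      rw [this, Real.sqrt_mul (by positivity), Real.sqrt_sq (by positivity)]
    rw [k14] at k13
    have k15 : c * (1 + S ^ 2 * a ^ 2 - y ^ 2 * (a ^ 2 + S ^ 2)) * ζ ≤
        2 * (a * S) * √(rad c y) * ζ := by gcongr
    linarith

end Pool.Agent.W571.IG
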