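import Pool.Agent.W854.IG.Stmts

/-! Project IG (helper854): IG-RL, the real-variable inequality, from its normalised form. -/

set_option autoImplicit false

namespace Pool.Agent.W571.IG

open Pool.Agent.W854.IG

theorem fourth (r : ℝ) (hr : 0 < r) : ∃ ρ : ℝ, 0 < ρ ∧ ρ ^ 4 = r := by
  refine ⟨√√r, by positivity, ?_⟩
  have h1 : (√√r) ^ 2 = √r := Real.sq_sqrt (Real.sqrt_nonneg _)
  have h2 : (√r) ^ 2 = r := Real.sq_sqrt hr.le
  calc (√√r) ^ 4 = ((√√r) ^ 2) ^ 2 := by ring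
    _ = r := by rw [h1, h2]

theorem core (h : S_RLN) {p1 p2 p3 p4 q1 q2 q3 q4 a0 ai ax ay w z a s c th : ℝ}
    (hq1 : 0 < q1) (hq2 : 0 < q2) (hq3 : 0 < q3) (hq4 : 0 < q4)
    (ha0 : 0 < a0) (hai : 0 < ai) (hax : 0 < ax) (hay : 0 < ay) (hw : 1 ≤ w) (hz : 0 < z)
    (ha : 0 < a) (hs : 0 < s) (hth : 0 < th) (hc1 : 1 ≤ c)
    (hp1 : p1 = q1 * (a * s * c * th)) (hp2 : p2 * (a * s) = q2 * (c * th))
    (hp3 : p3 * (c * s) = q3 * (a * th)) (hp4 : p4 * (c * a) = q4 * (s * th))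
    (H : ∀ t : ℝ, 0 < t → (t * p1 + q1) * (t * p2 + q2) * (ax + ay) ^ 2
      ≤ (a0 + ai) ^ 2 * ((t * p3 + q3) * (t * p4 + q4)))
    (H2 : p1 * q2 * ax ^ 2 ≤ a0 ^ 2 * (q3 * p4))
    (H3 : p1 * q2 * ai ^ 2 ≤ a0 ^ 2 * (q1 * p2))
    (F2 : q3 * p2 ≤ p3 * q2) (F4 : q4 * p2 ≤ p4 * q2) :
    (w * z * p1 + q1) * (z * p2 + w * q2) * (ax * w + ay) ^ 2
      ≤ (a0 * w + ai) ^ 2 * ((z * p3 + w * q3) * (w * z * p4 + q4)) := by
  have hc : 0 < c := by linarith
  have hP : ∀ w z : ℝ, (w * z * p1 + q1) * (z * p2 + w * q2) * (a * s) =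
      q1 * q2 * ((th * z * c + w * s * a) * (a * c * (th * z) * (w * s) + 1)) := by
    intro w z
    rw [hp1]
    linear_combination ((w * z * (q1 * (a * s * c * th)) + q1) * z) * hp2
  have hQ : ∀ w z : ℝ, (z * p3 + w * q3) * (w * z * p4 + q4) * (c * s * (c * a)) =
      q3 * q4 * ((th * z * a + w * s * c) * (th * z * (w * s) + a * c)) := by
    intro w z
    linear_combination (z * ((w * z * p4 + q4) * (c * a))) * hp3 +
      (q3 * (z * a * th + w * c * s)) * (w * z) * hp4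
  obtain ⟨k, hk, hkk⟩ : ∃ k : ℝ, 0 < k ∧ k ^ 2 * (q3 * q4) = q1 * q2 * c ^ 2 := by
    refine ⟨√(q1 * q2 * c ^ 2 / (q3 * q4)), by positivity, ?_⟩
    rw [Real.sq_sqrt (by positivity)]
    field_simp
  -- the equivalence
  have equiv : ∀ w z : ℝ, 0 < w → 0 < z →
      ((w * z * p1 + q1) * (z * p2 + w * q2) * (ax * w + ay) ^ 2
        ≤ (a0 * w + ai) ^ 2 * ((z * p3 + w * q3) * (w * z * p4 + q4)) ↔
      (th * z * c + w * s * a) * (a * c * (th * z) * (w * s) + 1) ≤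
        (a0 / (ax * k) * (w + ai / a0) / (w + ay / ax)) ^ 2 *
          ((th * z * a + w * s * c) * (th * z * (w * s) + a * c))) := by
    intro w z hw hz
    have e : a0 / (ax * k) * (w + ai / a0) / (w + ay / ax) =
        (a0 * w + ai) / (k * (ax * w + ay)) := by
      have : w + ay / ax ≠ 0 := by positivity
      field_simp
    rw [e, div_pow, div_mul_eq_mul_div, le_div_iff₀ (by positivity)]
    have h1 := hP w z
    have h2 := hQ w z
    set P := (w * z * p1 + q1) * (z * p2 + w * q2)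
    set Q := (z * p3 + w * q3) * (w * z * p4 + q4)
    set L := (th * z * c + w * s * a) * (a * c * (th * z) * (w * s) + 1)
    set R := (th * z * a + w * s * c) * (th * z * (w * s) + a * c)
    set B := ax * w + ay
    set A := a0 * w + ai
    have h3 : (P * B ^ 2) * (c * s * (c * a)) = (q3 * q4) * (L * (k * B) ^ 2) := by
      linear_combination (B ^ 2 * c ^ 2) * h1 - (L * B ^ 2) * hkk
    have h4 : (A ^ 2 * Q) * (c * s * (c * a)) = (q3 * q4) * (A ^ 2 * R) := by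
      linear_combination (A ^ 2) * h2
    have hpos : 0 < c * s * (c * a) := by positivity
    have hqq : 0 < q3 * q4 := by positivity
    rw [← mul_le_mul_iff_left₀ hpos, h3, h4, mul_le_mul_iff_right₀ hqq]
  have hw0 : 0 < w := by linarith
  rw [equiv w z hw0 hz]
  have hca : c ≤ a := by
    have h1 : q3 * p2 * (a * s * (c * s)) ≤ p3 * q2 * (a * s * (c * s)) := by gcongr
    have e1 : q3 * p2 * (a * s * (c * s)) = (q3 * q2 * th * s) * c ^ 2 := by
      linear_combination (q3 * (c * s)) * hp2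
    have e2 : p3 * q2 * (a * s * (c * s)) = (q3 * q2 * th * s) * a ^ 2 := by
      linear_combination (q2 * (a * s)) * hp3
    rw [e1, e2] at h1
    have h2 := le_of_mul_le_mul_left h1 (by positivity)
    exact le_of_sq_le_sq h2 ha.le
  have hcs : c ≤ s := by
    have h1 : q4 * p2 * (a * s * (c * a)) ≤ p4 * q2 * (a * s * (c * a)) := by gcongr
    have e1 : q4 * p2 * (a * s * (c * a)) = (q4 * q2 * th * a) * c ^ 2 := by
      linear_combination (q4 * (c * a)) * hp2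
    have e2 : p4 * q2 * (a * s * (c * a)) = (q4 * q2 * th * a) * s ^ 2 := by
      linear_combination (q2 * (a * s)) * hp4
    rw [e1, e2] at h1
    have h2 := le_of_mul_le_mul_left h1 (by positivity)
    exact le_of_sq_le_sq h2 hs.le
  have haX : a ≤ a0 / (ax * k) := by
    rw [le_div_iff₀ (by positivity)]
    have h1 : p1 * q2 * ax ^ 2 * (c * a) ≤ a0 ^ 2 * (q3 * p4) * (c * a) := by gcongr
    have e1 : p1 * q2 * ax ^ 2 * (c * a) = (s * th * (q3 * q4)) * (a * (ax * k)) ^ 2 := by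
      rw [hp1]
      linear_combination (-(s * th * a ^ 2 * ax ^ 2)) * hkk
    have e2 : a0 ^ 2 * (q3 * p4) * (c * a) = (s * th * (q3 * q4)) * a0 ^ 2 := by
      linear_combination (a0 ^ 2 * q3) * hp4
    rw [e1, e2] at h1
    have h2 := le_of_mul_le_mul_left h1 (by positivity)
    exact le_of_sq_le_sq h2 ha0.le
  have hasn : a * s * (ai / a0) ≤ 1 := by
    rw [← mul_div_assoc, div_le_one ha0]
    have h1 : p1 * q2 * ai ^ 2 * (a * s) ≤ a0 ^ 2 * (q1 * p2) * (a * s) := by gcongr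
    have e1 : p1 * q2 * ai ^ 2 * (a * s) = (q1 * q2 * (c * th)) * (a * s * ai) ^ 2 := by
      rw [hp1]
      ring
    have e2 : a0 ^ 2 * (q1 * p2) * (a * s) = (q1 * q2 * (c * th)) * a0 ^ 2 := by
      linear_combination (a0 ^ 2 * q1) * hp2
    rw [e1, e2] at h1
    have h2 := le_of_mul_le_mul_left h1 (by positivity)
    exact le_of_sq_le_sq h2 ha0.le
  refine h a c s (a0 / (ax * k)) (ai / a0) (ay / ax) w (th * z) hc1 hca hcs haX (by positivity)
    (by positivity) hasn hw (by positivity) ?_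
  intro t ht
  have h1 := H (t / th) (by positivity)
  have h2 := (equiv 1 (t / th) one_pos (by positivity)).1 (by
    have e1 : (1 * (t / th) * p1 + q1) * (t / th * p2 + 1 * q2) * (ax * 1 + ay) ^ 2 =
        (t / th * p1 + q1) * (t / th * p2 + q2) * (ax + ay) ^ 2 := by ring
    have e2 : (a0 * 1 + ai) ^ 2 * ((t / th * p3 + 1 * q3) * (1 * (t / th) * p4 + q4)) =
        (a0 + ai) ^ 2 * ((t / th * p3 + q3) * (t / th * p4 + q4)) := by ring
    rw [e1, e2]
    exact h1)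
  have e3 : th * (t / th) = t := by field_simp
  rw [e3] at h2
  simpa only [one_mul] using h2

theorem half (h : S_RLN) {p1 p2 p3 p4 q1 q2 q3 q4 a0 ai ax ay w z : ℝ}
    (hp1 : 0 < p1) (hp2 : 0 < p2) (hp3 : 0 < p3) (hp4 : 0 < p4)
    (hq1 : 0 < q1) (hq2 : 0 < q2) (hq3 : 0 < q3) (hq4 : 0 < q4)
    (ha0 : 0 < a0) (hai : 0 < ai) (hax : 0 < ax) (hay : 0 < ay) (hw : 1 ≤ w) (hz : 0 < z)
    (H : ∀ t : ℝ, 0 < t → (t * p1 + q1) * (t * p2 + q2) * (ax + ay) ^ 2
      ≤ (a0 + ai) ^ 2 * ((t * p3 + q3) * (t * p4 + q4)))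
    (H2 : p1 * q2 * ax ^ 2 ≤ a0 ^ 2 * (q3 * p4))
    (H3 : p1 * q2 * ai ^ 2 ≤ a0 ^ 2 * (q1 * p2))
    (F2 : q3 * p2 ≤ p3 * q2) (F4 : q4 * p2 ≤ p4 * q2)
    (hC : p3 * p4 * (q1 * q2) ≤ p1 * p2 * (q3 * q4)) :
    (w * z * p1 + q1) * (z * p2 + w * q2) * (ax * w + ay) ^ 2
      ≤ (a0 * w + ai) ^ 2 * ((z * p3 + w * q3) * (w * z * p4 + q4)) := by
  obtain ⟨r1, hr1, hr1'⟩ := fourth (p1 / q1) (by positivity)
  obtain ⟨r2, hr2, hr2'⟩ := fourth (p2 / q2) (by positivity)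
  obtain ⟨r3, hr3, hr3'⟩ := fourth (p3 / q3) (by positivity)
  obtain ⟨r4, hr4, hr4'⟩ := fourth (p4 / q4) (by positivity)
  rw [eq_div_iff hq1.ne'] at hr1'
  rw [eq_div_iff hq2.ne'] at hr2'
  rw [eq_div_iff hq3.ne'] at hr3'
  rw [eq_div_iff hq4.ne'] at hr4'
  have hc1 : 1 ≤ r1 * r2 / (r3 * r4) := by
    rw [one_le_div (by positivity)]
    rw [← hr1', ← hr2', ← hr3', ← hr4'] at hC
    have h1 : (q1 * q2 * q3 * q4) * (r3 * r4) ^ 4 ≤ (q1 * q2 * q3 * q4) * (r1 * r2) ^ 4 := by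
      linarith
    have h2 := le_of_mul_le_mul_left h1 (by positivity)
    exact (pow_le_pow_iff_left₀ (by positivity) (by positivity) (by norm_num)).1 h2
  refine core h (a := r1 * r3 / (r2 * r4)) (s := r1 * r4 / (r2 * r3)) (c := r1 * r2 / (r3 * r4))
    (th := r1 * r2 * r3 * r4) hq1 hq2 hq3 hq4 ha0 hai hax hay hw hz (by positivity) (by positivity)
    (by positivity) hc1 ?_ ?_ ?_ ?_ H H2 H3 F2 F4
  · rw [← hr1']
    field_simp
  · rw [← hr2']
    field_simp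
  · rw [← hr3']
    field_simp
  · rw [← hr4']
    field_simp

theorem rl (h : S_RLN) : S_RL := by
  intro p1 p2 p3 p4 q1 q2 q3 q4 a0 ai ax ay w z hp1 hp2 hp3 hp4 hq1 hq2 hq3 hq4 ha0 hai hax hay
    hw hz H H2 H3 F1 F2 F3 F4
  rcases le_total (p3 * p4 * (q1 * q2)) (p1 * p2 * (q3 * q4)) with hC | hC
  · exact half h hp1 hp2 hp3 hp4 hq1 hq2 hq3 hq4 ha0 hai hax hay hw hz H H2 H3 F2 F4 hC
  · have key := half h (p1 := q2) (p2 := q1) (p3 := q4) (p4 := q3) (q1 := p2) (q2 := p1)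
      (q3 := p4) (q4 := p3) (z := 1 / z) hq2 hq1 hq4 hq3 hp2 hp1 hp4 hp3 ha0 hai hax hay hw
      (by positivity)
      (by
        intro t ht
        have h1 := H (1 / t) (by positivity)
        have h2 : (1 / t * p1 + q1) * (1 / t * p2 + q2) * (ax + ay) ^ 2 * t ^ 2 ≤
            (a0 + ai) ^ 2 * ((1 / t * p3 + q3) * (1 / t * p4 + q4)) * t ^ 2 := by gcongr
        have e1 : (1 / t * p1 + q1) * (1 / t * p2 + q2) * (ax + ay) ^ 2 * t ^ 2 =
            (t * q2 + p2) * (t * q1 + p1) * (ax + ay) ^ 2 := by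
          field_simp
          ring
        have e2 : (a0 + ai) ^ 2 * ((1 / t * p3 + q3) * (1 / t * p4 + q4)) * t ^ 2 =
            (a0 + ai) ^ 2 * ((t * q4 + p4) * (t * q3 + p3)) := by
          field_simp
          ring
        rw [e1, e2] at h2
        exact h2)
      (by linarith) (by linarith) (by linarith) (by linarith) (by linarith)
    have h2 : (w * (1 / z) * q2 + p2) * (1 / z * q1 + w * p1) * (ax * w + ay) ^ 2 * z ^ 2 ≤
        (a0 * w + ai) ^ 2 * ((1 / z * q4 + w * p4) * (w * (1 / z) * q3 + p3)) * z ^ 2 := by gcongr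
    have e1 : (w * (1 / z) * q2 + p2) * (1 / z * q1 + w * p1) * (ax * w + ay) ^ 2 * z ^ 2 =
        (w * z * p1 + q1) * (z * p2 + w * q2) * (ax * w + ay) ^ 2 := by
      field_simp
      ring
    have e2 : (a0 * w + ai) ^ 2 * ((1 / z * q4 + w * p4) * (w * (1 / z) * q3 + p3)) * z ^ 2 =
        (a0 * w + ai) ^ 2 * ((z * p3 + w * q3) * (w * z * p4 + q4)) := by
      field_simp
      ring
    rw [e1, e2] at h2
    exact h2

end Pool.Agent.W571.IG
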